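import Pool.Agent.W580.SH.Final
import Pool.Agent.W212.SH.Low
import Pool.Agent.Y424.HS.Cone
import Pool.Agent.Y424.HS.Half

/-!
# MP_ba6ea3_co, Q1: the shifted Heller constant for all `m`, bounds from both sides

The upper bound `h_s(m) ≤ m² + m` is the starting result. New are the two families of examples
which show `h_s(m) ≥ m² - m + 2` and `h_s(m) ≥ 6 (m - 1)`.
-/

set_option autoImplicit false

namespace Pool.Agent.Results.MP_ba6ea3_co.TwoSidedBounds

open Pool.Agent.W580.SH Pool.Agent.Y424.HS Filter Topology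

theorem size_le {m n : ℕ} (h : n ∈ ShiftedSizes m) : n ≤ shiftedHeller m :=
  le_csSup (bdd_shifted m) h

/-- the example with one row: `1/2` and `-1/2` -/
theorem two_mem : 2 ∈ ShiftedSizes 1 := by
  refine ⟨fun _ => 1 / 2, Matrix.of fun _ j => if j = 0 then 0 else -1, fun _ => by norm_num, ?_,
    ?_, ?_, ?_⟩
  · intro h
    have := congrFun h 0
    simp at this
  · intro i j
    rw [Matrix.of_apply]
    split_ifs
    · right; left; rfl
    · left; rfl
  · intro j j' h
    have := congrFun h 0
    simp only [Matrix.transpose_apply, Matrix.of_apply] at this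
    fin_cases j <;> fin_cases j' <;> simp_all
  · intro k r c
    rcases k with _ | k
    · simp
    rcases k with _ | k
    · rw [Matrix.det_fin_one, Matrix.submatrix_apply, Matrix.of_apply, Matrix.of_apply]
      split_ifs <;> rw [abs_le] <;> constructor <;> norm_num
    · have : ((Matrix.of fun (i : Fin 1) (j : Fin 2) => (1 / 2 : ℝ) +
          (Matrix.of fun (_ : Fin 1) (j : Fin 2) => if j = 0 then (0 : ℝ) else -1) i j).submatrix
          r c).det = 0 := by
        apply Matrix.det_zero_of_row_eq (i := 0) (j := 1) (by simp)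
        funext b
        rw [Matrix.submatrix_apply, Matrix.submatrix_apply, Subsingleton.elim (r 0) (r 1)]
      rw [this]; simp

/-- **Full answer to Q1, with bounds from both sides.** For every `m ≥ 1` the maxima defining
`h_s(m)` and `h(1,m)` exist, `h(1,m) = m² + m + 1`, and
`max (m² - m + 2) (6 (m - 1)) ≤ h_s(m) ≤ m² + m`. So `h_s(m) < h(1,m)`, the difference
`h(1,m) - h_s(m)` lies between `1` and `2 m - 1`, it is `1` for `m = 1, 2, 3`, and
`h_s(m) / h(1,m)` tends to `1`. -/
theorem result :
    (∀ m : ℕ, 1 ≤ m →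
      IsGreatest (ShiftedSizes m) (shiftedHeller m) ∧
      IsGreatest (HellerSizes m) (hellerConst m) ∧
      hellerConst m = m ^ 2 + m + 1 ∧
      m ^ 2 + 2 ≤ shiftedHeller m + m ∧
      6 * (m - 1) ≤ shiftedHeller m ∧
      shiftedHeller m ≤ m ^ 2 + m ∧
      shiftedHeller m < hellerConst m ∧
      hellerConst m ≤ shiftedHeller m + (2 * m - 1)) ∧
    shiftedHeller 1 = 2 ∧ shiftedHeller 2 = 6 ∧ shiftedHeller 3 = 12 ∧
    Tendsto (fun m : ℕ => (shiftedHeller m : ℝ) / (hellerConst m : ℝ)) atTop (𝓝 1) := by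
  have hA := all Pool.Agent.W212.SH.main
  have hlow : ∀ m : ℕ, 1 ≤ m → m ^ 2 + 2 ≤ shiftedHeller m + m := by
    intro m hm
    obtain ⟨d, rfl⟩ := Nat.exists_eq_add_of_le' hm
    rcases Nat.eq_zero_or_pos d with h0 | h0
    · subst h0
      have := size_le two_mem
      norm_num
      omega
    · have := size_le (lower d h0)
      nlinarith
  have hhalf : ∀ m : ℕ, 1 ≤ m → 6 * (m - 1) ≤ shiftedHeller m := by
    intro m hm
    obtain ⟨d, rfl⟩ := Nat.exists_eq_add_of_le' hm
    rcases Nat.eq_zero_or_pos d with h0 | h0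
    · subst h0
      exact Nat.zero_le _
    · exact size_le (lower_half d h0)
  refine ⟨fun m hm => ?_, ?_, ?_, ?_, ?_⟩
  · obtain ⟨h1, h2, h3, h4, h5⟩ := hA m hm
    refine ⟨h1, h2, h3, hlow m hm, hhalf m hm, h4, h5, ?_⟩
    have := hlow m hm
    rw [h3]
    omega
  · have h1 := (hA 1 le_rfl).2.2.2.1
    have h2 := hlow 1 le_rfl
    omega
  · have h1 := (hA 2 (by norm_num)).2.2.2.1
    have h2 := hhalf 2 (by norm_num)
    omega
  · have h1 := (hA 3 (by norm_num)).2.2.2.1
    have h2 := hhalf 3 (by norm_num)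
    omega
  · have hlim : Tendsto (fun m : ℕ => 1 - 2 / (m : ℝ)) atTop (𝓝 1) := by
      have := (tendsto_const_div_atTop_nhds_zero_nat (2 : ℝ)).const_sub (1 : ℝ)
      simpa using this
    refine tendsto_of_tendsto_of_tendsto_of_le_of_le' hlim tendsto_const_nhds ?_ ?_
    · filter_upwards [eventually_ge_atTop 1] with m hm
      have h3 := (hA m hm).2.2.1
      have h4 := hlow m hm
      have hm0 : (0 : ℝ) < m := by exact_mod_cast hm
      have h5 : ((m : ℝ) ^ 2 + 2) ≤ shiftedHeller m + m := by exact_mod_cast h4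
      have h6 : (hellerConst m : ℝ) = (m : ℝ) ^ 2 + m + 1 := by exact_mod_cast h3
      have hpos : (0 : ℝ) < (m : ℝ) ^ 2 + m + 1 := by positivity
      rw [h6, le_div_iff₀ hpos]
      have e : (1 - 2 / (m : ℝ)) * ((m : ℝ) ^ 2 + m + 1) = (m : ℝ) ^ 2 - m - 1 - 2 / m := by
        field_simp
        ring
      rw [e]
      have : 0 < 2 / (m : ℝ) := by positivity
      linarith
    · filter_upwards [eventually_ge_atTop 1] with m hm
      have h5 := (hA m hm).2.2.2.2
      have h7 : (shiftedHeller m : ℝ) ≤ hellerConst m := by exact_mod_cast h5.le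
      have h8 : (0 : ℝ) < hellerConst m := by
        have h3 := (hA m hm).2.2.1
        rw [h3]
        positivity
      rw [div_le_one h8]
      exact h7

end Pool.Agent.Results.MP_ba6ea3_co.TwoSidedBounds
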